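import Pool.Agent.helper15.LC.Spec

/-!
# Row lc:CUB (MP_7c3fb3_pr): free energy of the torus and free boxes
-/

set_option autoImplicit false

open Finset Filter Topology

namespace CO

open CU

/-- the bond `(x, i)` with `x i = u` is cut -/
def CUB_bad {n : ℕ} (l : ℕ) (u : ZMod n) : Prop := (u.val + 1) % l = 0 ∨ u.val + 1 = n

instance CUB_dec {n : ℕ} (l : ℕ) (u : ZMod n) : Decidable (CUB_bad l u) := by
  unfold CUB_bad
  infer_instance

section defs
variable {d n : ℕ} [NeZero n]

/-- coupling on the bonds which are not cut -/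
noncomputable def CUB_K (b : ℝ) (l : ℕ) (x y : Site d n) : ℝ :=
  b * ∑ i : Fin d, if y = x + ev i ∧ ¬ CUB_bad l (x i) then (1 : ℝ) else 0

/-- energy of the bonds which are not cut -/
noncomputable def CUB_H (l : ℕ) (σ : Conf d n) : ℝ :=
  ∑ x : Site d n, ∑ i : Fin d, if ¬ CUB_bad l (x i) then sg (σ x) * sg (σ (x + ev i)) else 0

theorem CUB_HH (b : ℝ) (l : ℕ) (σ : Conf d n) :
    CWM.HH (CUB_K b l) (fun _ => 0) σ = b * CUB_H l σ := by
  unfold CWM.HH CUB_H
  rw [Finset.mul_sum]
  have h0 : (∑ x : Site d n, (0 : ℝ) * sg (σ x)) = 0 := by simp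
  rw [h0, add_zero]
  refine Finset.sum_congr rfl fun x _ => ?_
  unfold CUB_K
  have h1 : ∀ y : Site d n, b * (∑ i : Fin d, if y = x + ev i ∧ ¬ CUB_bad l (x i) then (1 : ℝ) else 0) *
      (sg (σ x) * sg (σ y)) =
      b * ∑ i : Fin d, (if y = x + ev i then (if ¬ CUB_bad l (x i) then sg (σ x) * sg (σ y) else 0) else 0) := by
    intro y
    rw [mul_assoc, Finset.sum_mul]
    congr 1
    refine Finset.sum_congr rfl fun i _ => ?_
    by_cases h : y = x + ev i
    · by_cases h' : CUB_bad l (x i)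
      · rw [if_neg (fun t => t.2 h'), if_pos h, if_neg (not_not.2 h'), zero_mul]
      · rw [if_pos ⟨h, h'⟩, if_pos h, if_pos h', one_mul]
    · rw [if_neg (fun t => h t.1), if_neg h, zero_mul]
  rw [Finset.sum_congr rfl fun y _ => h1 y, ← Finset.mul_sum, Finset.sum_comm]
  congr 1
  refine Finset.sum_congr rfl fun i _ => ?_
  rw [Finset.sum_ite_eq' univ (x + ev i) fun y => if ¬ CUB_bad l (x i) then sg (σ x) * sg (σ y) else 0]
  simp only [mem_univ, if_true]

end defs

theorem CUB_sg (b b' : Bool) : |sg b * sg b'| ≤ 1 := by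
  unfold sg
  cases b <;> cases b' <;> norm_num

/-- number of bad residues -/
theorem CUB_cnt (n l : ℕ) [NeZero n] : #{u : ZMod n | CUB_bad l u} ≤ n / l + 1 := by
  have h1 : #{u : ZMod n | CUB_bad l u} ≤ #({v ∈ range n | l ∣ v + 1} ∪ {n - 1}) := by
    refine Finset.card_le_card_of_injOn (fun u => u.val) ?_ ?_
    · intro u hu
      have hu' : CUB_bad l u := (Finset.mem_filter.1 (Finset.mem_coe.1 hu)).2
      have hlt : u.val < n := ZMod.val_lt u
      show u.val ∈ _
      rw [Finset.mem_coe, Finset.mem_union]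
      rcases hu' with h | h
      · left
        rw [Finset.mem_filter, Finset.mem_range]
        exact ⟨hlt, Nat.dvd_of_mod_eq_zero h⟩
      · right
        rw [Finset.mem_singleton]
        omega
    · intro u _ v _ h
      exact ZMod.val_injective n h
  refine h1.trans ((Finset.card_union_le _ _).trans ?_)
  rw [Nat.card_multiples, Finset.card_singleton]

/-- the number of cut bonds -/
theorem CUB_cut (d n l : ℕ) [NeZero n] (hl : 1 ≤ l) (hln : l ≤ n) :
    ∑ x : Site d n, ∑ i : Fin d, (if CUB_bad l (x i) then (1 : ℝ) else 0) ≤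
      2 * d * (Fintype.card (Site d n) : ℝ) / l := by
  have hlR : (0 : ℝ) < l := by exact_mod_cast hl
  have hnR : (0 : ℝ) < n := by exact_mod_cast (lt_of_lt_of_le hl hln)
  rw [Finset.sum_comm]
  have hone : ∀ i : Fin d, ∑ x : Site d n, (if CUB_bad l (x i) then (1 : ℝ) else 0) ≤
      2 * (Fintype.card (Site d n) : ℝ) / l := by
    intro i
    obtain ⟨S, hS⟩ : ∃ S : ℝ, S = ∑ x : Site d n, (if CUB_bad l (x i) then (1 : ℝ) else 0) := ⟨_, rfl⟩
    have h1 : ∀ a : ZMod n, S = ∑ x : Site d n, (if CUB_bad l (x i + a) then (1 : ℝ) else 0) := by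
      intro a
      rw [hS, ← Equiv.sum_comp (Equiv.addRight (Pi.single i a : Site d n))]
      refine Finset.sum_congr rfl fun x _ => ?_
      have : (Equiv.addRight (Pi.single i a : Site d n) x) i = x i + a := by
        show (x + Pi.single i a : Site d n) i = x i + a
        rw [Pi.add_apply, Pi.single_eq_same]
      rw [this]
    have h2 : (n : ℝ) * S = ∑ a : ZMod n, ∑ x : Site d n, (if CUB_bad l (x i + a) then (1 : ℝ) else 0) := by
      rw [← Finset.sum_congr rfl fun a _ => h1 a, Finset.sum_const, Finset.card_univ, ZMod.card, nsmul_eq_mul]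
    have h3 : ∀ x : Site d n, ∑ a : ZMod n, (if CUB_bad l (x i + a) then (1 : ℝ) else 0) =
        ∑ a : ZMod n, (if CUB_bad l a then (1 : ℝ) else 0) := by
      intro x
      rw [← Equiv.sum_comp (Equiv.addLeft (x i)) (fun a : ZMod n => if CUB_bad l a then (1 : ℝ) else 0)]
      rfl
    rw [Finset.sum_comm, Finset.sum_congr rfl fun x _ => h3 x, Finset.sum_const, Finset.card_univ,
      nsmul_eq_mul] at h2
    have h4 : ∑ a : ZMod n, (if CUB_bad l a then (1 : ℝ) else 0) ≤ 2 * n / l := by
      have h5 : ∑ a : ZMod n, (if CUB_bad l a then (1 : ℝ) else 0) = (#{u : ZMod n | CUB_bad l u} : ℝ) := by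
        rw [Finset.card_filter]
        push_cast
        rfl
      rw [h5]
      have h6 : (#{u : ZMod n | CUB_bad l u} : ℝ) ≤ ((n / l + 1 : ℕ) : ℝ) := by exact_mod_cast CUB_cnt n l
      have h7 : ((n / l : ℕ) : ℝ) ≤ (n : ℝ) / l := Nat.cast_div_le
      have h8 : (1 : ℝ) ≤ (n : ℝ) / l := by
        rw [le_div_iff₀ hlR, one_mul]
        exact_mod_cast hln
      have h9 : 2 * (n : ℝ) / l = (n : ℝ) / l + (n : ℝ) / l := by ring
      rw [h9]
      push_cast at h6
      linarith
    rw [← hS]
    have hN : (0 : ℝ) ≤ (Fintype.card (Site d n) : ℝ) := Nat.cast_nonneg _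
    have h10 : (n : ℝ) * S ≤ n * (2 * (Fintype.card (Site d n) : ℝ) / l) := by
      rw [h2]
      calc (Fintype.card (Site d n) : ℝ) * ∑ a : ZMod n, (if CUB_bad l a then (1 : ℝ) else 0)
          ≤ (Fintype.card (Site d n) : ℝ) * (2 * n / l) := mul_le_mul_of_nonneg_left h4 hN
        _ = n * (2 * (Fintype.card (Site d n) : ℝ) / l) := by ring
    exact le_of_mul_le_mul_left h10 hnR
  calc ∑ i : Fin d, ∑ x : Site d n, (if CUB_bad l (x i) then (1 : ℝ) else 0)
      ≤ ∑ i : Fin d, 2 * (Fintype.card (Site d n) : ℝ) / l := Finset.sum_le_sum fun i _ => hone i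
    _ = 2 * d * (Fintype.card (Site d n) : ℝ) / l := by
        rw [Finset.sum_const, Finset.card_univ, Fintype.card_fin, nsmul_eq_mul]
        ring

theorem CUB_diff (d n l : ℕ) [NeZero n] (hl : 1 ≤ l) (hln : l ≤ n) (σ : Conf d n) :
    |HN σ - CUB_H l σ| ≤ 2 * d * (Fintype.card (Site d n) : ℝ) / l := by
  refine le_trans ?_ (CUB_cut d n l hl hln)
  have h1 : HN σ - CUB_H l σ = ∑ x : Site d n, ∑ i : Fin d,
      (if CUB_bad l (x i) then sg (σ x) * sg (σ (x + ev i)) else 0) := by
    unfold HN CUB_H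
    rw [← Finset.sum_sub_distrib]
    refine Finset.sum_congr rfl fun x _ => ?_
    rw [← Finset.sum_sub_distrib]
    refine Finset.sum_congr rfl fun i _ => ?_
    by_cases h : CUB_bad l (x i)
    · rw [if_neg (not_not.2 h), if_pos h, sub_zero]
    · rw [if_pos h, if_neg h, sub_self]
  rw [h1]
  refine (Finset.abs_sum_le_sum_abs _ _).trans (Finset.sum_le_sum fun x _ => ?_)
  refine (Finset.abs_sum_le_sum_abs _ _).trans (Finset.sum_le_sum fun i _ => ?_)
  by_cases h : CUB_bad l (x i)
  · rw [if_pos h, if_pos h]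
    exact CUB_sg _ _
  · rw [if_neg h, if_neg h, abs_zero]

/-- comparison of partition functions -/
theorem CUB_log {X : Type} [Fintype X] [Nonempty X] (b C : ℝ) (hb : 0 ≤ b) (F G : X → ℝ)
    (h : ∀ x, |F x - G x| ≤ C) :
    Real.log (∑ x, Real.exp (b * F x)) ≤ Real.log (∑ x, Real.exp (b * G x)) + b * C := by
  have hp : 0 < ∑ x, Real.exp (b * G x) := Finset.sum_pos (fun x _ => Real.exp_pos _) Finset.univ_nonempty
  have hp' : 0 < ∑ x, Real.exp (b * F x) := Finset.sum_pos (fun x _ => Real.exp_pos _) Finset.univ_nonempty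
  have h1 : ∑ x, Real.exp (b * F x) ≤ (∑ x, Real.exp (b * G x)) * Real.exp (b * C) := by
    rw [Finset.sum_mul]
    refine Finset.sum_le_sum fun x _ => ?_
    rw [← Real.exp_add]
    refine Real.exp_le_exp.2 ?_
    rw [← mul_add]
    refine mul_le_mul_of_nonneg_left ?_ hb
    have := (abs_le.1 (h x)).2
    linarith
  have h2 := Real.log_le_log hp' h1
  rw [Real.log_mul hp.ne' (Real.exp_pos _).ne', Real.log_exp] at h2
  exact h2

section geo
variable {d n : ℕ} [NeZero n]

theorem CUB_cls (hn : 3 ≤ n) (l : ℕ) (u : Site d n) (j : Fin d) (h : ¬ CUB_bad l (u j)) (k : Fin d) :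
    ((u + ev j : Site d n) k).val / l = (u k).val / l := by
  unfold CUB_bad at h
  rw [not_or] at h
  by_cases hk : k = j
  · subst hk
    have h1 : (u + ev k : Site d n) k = u k + 1 := by
      show u k + (Pi.single k 1 : Site d n) k = u k + 1
      rw [Pi.single_eq_same]
    have h2 : (1 : ZMod n).val = 1 := ZMod.val_one'' (by omega)
    have hlt : (u k).val < n := ZMod.val_lt _
    have h3 : (u k + 1).val = (u k).val + 1 := by
      rw [ZMod.val_add_of_lt, h2]
      rw [h2]
      omega
    rw [h1, h3, Nat.succ_div, if_neg, add_zero]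
    intro hd
    exact h.1 (Nat.mod_eq_zero_of_dvd hd)
  · have h1 : (u + ev j : Site d n) k = u k := by
      show u k + (Pi.single j 1 : Site d n) k = u k
      rw [Pi.single_eq_of_ne hk, add_zero]
    rw [h1]

theorem CUB_near (l : ℕ) (hl : 1 ≤ l) (a b : ZMod n) (h : a.val / l = b.val / l) :
    (b - a).valMinAbs.natAbs ≤ l := by
  have h1 := Nat.div_add_mod a.val l
  have h2 := Nat.div_add_mod b.val l
  have h3 := Nat.mod_lt a.val (show l > 0 by omega)
  have h4 := Nat.mod_lt b.val (show l > 0 by omega)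
  rw [h] at h1
  rcases le_total a.val b.val with hab | hab
  · have h5 : (b - a).val = b.val - a.val := ZMod.val_sub hab
    have h6 := ZMod.valMinAbs_natAbs_eq_min (b - a)
    have h7 : (b - a).valMinAbs.natAbs ≤ (b - a).val := by
      rw [h6]
      exact min_le_left _ _
    omega
  · have h5 : (a - b).val = a.val - b.val := ZMod.val_sub hab
    have h6 := ZMod.valMinAbs_natAbs_eq_min (a - b)
    have h7 : (a - b).valMinAbs.natAbs ≤ (a - b).val := by
      rw [h6]
      exact min_le_left _ _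
    have h8 : (b - a).valMinAbs.natAbs = (a - b).valMinAbs.natAbs := by
      rw [← neg_sub a b]
      exact ZMod.natAbs_valMinAbs_neg _
    omega

theorem CUB_KT0 (b : ℝ) (u v : Site d n) : KT b (fun _ => 0) u v =
    b * ∑ i : Fin d, (if v = u + ev i then (1 : ℝ) else 0) := by
  unfold KT
  rw [add_zero]

theorem CUB_KTn (b : ℝ) (hb : 0 ≤ b) (u v : Site d n) : 0 ≤ KT b (fun _ => 0) u v := by
  rw [CUB_KT0]
  refine mul_nonneg hb (Finset.sum_nonneg fun i _ => ?_)
  split_ifs
  · exact zero_le_one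
  · exact le_rfl

theorem CUB_KFn (b : ℝ) (hb : 0 ≤ b) (R : Finset (Site d n)) (u v : Site d n) : 0 ≤ KF b R u v := by
  unfold KF
  split_ifs
  · exact CUB_KTn b hb u v
  · exact le_rfl

theorem CUB_Kn (b : ℝ) (hb : 0 ≤ b) (l : ℕ) (u v : Site d n) : 0 ≤ CUB_K b l u v := by
  unfold CUB_K
  refine mul_nonneg hb (Finset.sum_nonneg fun i _ => ?_)
  split_ifs
  · exact zero_le_one
  · exact le_rfl

theorem CUB_Kle (b : ℝ) (hb : 0 ≤ b) (l : ℕ) (u v : Site d n) : CUB_K b l u v ≤ KT b (fun _ => 0) u v := by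
  rw [CUB_KT0]
  unfold CUB_K
  refine mul_le_mul_of_nonneg_left (Finset.sum_le_sum fun i _ => ?_) hb
  by_cases h : v = u + ev i
  · rw [if_pos h]
    split_ifs
    · exact le_rfl
    · exact zero_le_one
  · rw [if_neg h, if_neg (fun t => h t.1)]

theorem CUB_KF (b : ℝ) (l : ℕ) (x u v : Site d n) :
    KF b (Box l x) (u + x) (v + x) = KF b (Box l (0 : Site d n)) u v := by
  have hm : ∀ w : Site d n, w + x ∈ Box l x ↔ w ∈ Box l (0 : Site d n) := by
    intro w
    unfold Box
    rw [Finset.mem_filter, Finset.mem_filter]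
    unfold Near
    simp only [Finset.mem_univ, true_and, Pi.add_apply, Pi.zero_apply, add_sub_cancel_right, sub_zero]
  have hk : KT b (fun _ => 0) (u + x) (v + x) = KT b (fun _ => 0) u v := by
    rw [CUB_KT0, CUB_KT0]
    congr 1
    refine Finset.sum_congr rfl fun i _ => ?_
    have : v + x = u + x + ev i ↔ v = u + ev i := by
      constructor
      · intro h
        have h' : v + x = (u + ev i) + x := by
          rw [h]
          abel
        exact add_right_cancel h'
      · intro h
        rw [h]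
        abel
    by_cases h : v = u + ev i
    · rw [if_pos h, if_pos (this.2 h)]
    · rw [if_neg h, if_neg (fun t => h (this.1 t))]
  unfold KF
  rw [hk]
  by_cases h : u ∈ Box l (0 : Site d n) ∧ v ∈ Box l (0 : Site d n)
  · rw [if_pos h, if_pos ⟨(hm u).2 h.1, (hm v).2 h.2⟩]
  · rw [if_neg h, if_neg (fun t => h ⟨(hm u).1 t.1, (hm v).1 t.2⟩)]

end geo

/-- without interaction -/
theorem CUB_zero {V : Type} [Fintype V] [DecidableEq V] (x y : V) :
    0 ≤ ex (fun _ _ : V => (0 : ℝ)) (fun _ => 0) (fun σ => sg (σ x) * sg (σ y)) := by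
  unfold ex
  have hH : ∀ σ : V → Bool, CWM.HH (fun _ _ : V => (0 : ℝ)) (fun _ => 0) σ = 0 := by
    intro σ
    unfold CWM.HH
    simp
  simp only [hH, Real.exp_zero, one_mul]
  refine div_nonneg ?_ (Finset.sum_nonneg fun _ _ => zero_le_one)
  by_cases hxy : x = y
  · subst hxy
    exact Finset.sum_nonneg fun σ _ => mul_self_nonneg _
  · have hinv : Function.Involutive (fun σ : V → Bool => Function.update σ x (!σ x)) := by
      intro σ
      simp
    obtain ⟨e, he⟩ : ∃ e : (V → Bool) ≃ (V → Bool), ∀ σ, e σ = Function.update σ x (!σ x) :=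
      ⟨hinv.toPerm, fun _ => rfl⟩
    have h1 := Equiv.sum_comp e (fun σ : V → Bool => sg (σ x) * sg (σ y))
    have h2 : ∑ σ : V → Bool, (fun σ : V → Bool => sg (σ x) * sg (σ y)) (e σ) =
        - ∑ σ : V → Bool, sg (σ x) * sg (σ y) := by
      rw [← Finset.sum_neg_distrib]
      refine Finset.sum_congr rfl fun σ _ => ?_
      show sg (e σ x) * sg (e σ y) = _
      rw [he]
      rw [Function.update_self, Function.update_of_ne (fun h => hxy h.symm)]
      have h3 : sg (!σ x) = - sg (σ x) := by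
        unfold sg
        cases σ x <;> simp
      rw [h3]
      ring
    have h4 := h2.symm.trans h1
    have h5 : ∑ σ : V → Bool, sg (σ x) * sg (σ y) = 0 := by linarith
    rw [h5]

theorem CUB_lin {d n : ℕ} [NeZero n] (K : Site d n → Site d n → ℝ) (F : Site d n → Fin d → Conf d n → ℝ) :
    (∑ σ : Conf d n, Real.exp (CWM.HH K (fun _ => 0) σ) * ∑ x, ∑ i, F x i σ) /
      ∑ σ : Conf d n, Real.exp (CWM.HH K (fun _ => 0) σ) =
      ∑ x, ∑ i, ex K (fun _ => 0) (F x i) := by
  unfold ex
  have h1 : ∑ σ : Conf d n, Real.exp (CWM.HH K (fun _ => 0) σ) * ∑ x, ∑ i, F x i σ =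
      ∑ x, ∑ i, ∑ σ : Conf d n, Real.exp (CWM.HH K (fun _ => 0) σ) * F x i σ := by
    rw [Finset.sum_congr rfl fun σ _ => Finset.mul_sum _ _ _, Finset.sum_comm]
    refine Finset.sum_congr rfl fun x _ => ?_
    rw [Finset.sum_congr rfl fun σ _ => Finset.mul_sum _ _ _, Finset.sum_comm]
  rw [h1, Finset.sum_div]
  refine Finset.sum_congr rfl fun x _ => ?_
  rw [Finset.sum_div]

theorem CUB (hLZ : LZ_stmt) (hFAC : FAC_stmt) (hGKW : GKW_stmt) (hTRX : TRX_stmt) (hHHT : HHT_stmt) :
    CUB_stmt := by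
  intro d n l _ b δ hd hn hl hln hδ hδb
  have hb : 0 ≤ b := hδ.trans hδb
  have hZt : ∀ t : ℝ, Zt d n t = ∑ σ : Conf d n, Real.exp (t * HN σ) := by
    intro t
    unfold Zt
    refine Finset.sum_congr rfl fun σ _ => ?_
    rw [(hHHT d n t 0 (fun _ => 0) σ).1]
    congr 1
    simp
  obtain ⟨C, hC⟩ : ∃ C : ℝ, C = 2 * d * (Fintype.card (Site d n) : ℝ) / l := ⟨_, rfl⟩
  have hdiff : ∀ σ : Conf d n, |HN σ - CUB_H l σ| ≤ C := by
    intro σ
    rw [hC]
    exact CUB_diff d n l hl hln σ
  have hC0 : 0 ≤ C := by rw [hC]; positivity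
  have s1 := CUB_log b C hb (fun σ : Conf d n => HN σ) (fun σ => CUB_H l σ) hdiff
  have s2 := CUB_log (b - δ) C (by linarith) (fun σ : Conf d n => CUB_H l σ) (fun σ => HN σ) (by
    intro σ
    rw [abs_sub_comm]
    exact hdiff σ)
  have s3 := ((hLZ (Conf d n) (fun σ => (b - δ) * CUB_H l σ) (fun σ => CUB_H l σ)).2 δ hδ).2
  have e1 : ∀ σ : Conf d n, (b - δ) * CUB_H l σ + δ * CUB_H l σ = b * CUB_H l σ := by
    intro σ
    ring
  simp only [e1] at s3
  -- the mean energy
  have hmean : (∑ σ : Conf d n, Real.exp (b * CUB_H l σ) * CUB_H l σ) / ∑ σ : Conf d n, Real.exp (b * CUB_H l σ) ≤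
      (Fintype.card (Site d n) : ℝ) * uF d n b l := by
    have h1 : (∑ σ : Conf d n, Real.exp (b * CUB_H l σ) * CUB_H l σ) / ∑ σ : Conf d n, Real.exp (b * CUB_H l σ) =
        ∑ x : Site d n, ∑ i : Fin d, ex (CUB_K b l) (fun _ => 0)
          (fun σ => if ¬ CUB_bad l (x i) then sg (σ x) * sg (σ (x + ev i)) else 0) := by
      rw [← CUB_lin]
      simp only [CUB_HH]
      rfl
    rw [h1]
    have h2 : (Fintype.card (Site d n) : ℝ) * uF d n b l = ∑ x : Site d n, ∑ i : Fin d,
        ex (KF b (Box l (0 : Site d n))) (fun _ => 0) (fun σ => sg (σ 0) * sg (σ (ev i))) := by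
      rw [Finset.sum_const, Finset.card_univ, nsmul_eq_mul]
      rfl
    rw [h2]
    refine Finset.sum_le_sum fun x _ => Finset.sum_le_sum fun i _ => ?_
    by_cases hbad : CUB_bad l (x i)
    · have h3 : ex (CUB_K b l) (fun _ => 0)
          (fun σ : Conf d n => if ¬ CUB_bad l (x i) then sg (σ x) * sg (σ (x + ev i)) else 0) = 0 := by
        unfold ex
        rw [Finset.sum_eq_zero, zero_div]
        intro σ _
        have h8 : (if ¬ CUB_bad l (x i) then sg (σ x) * sg (σ (x + ev i)) else 0) = 0 :=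
          if_neg (not_not.2 hbad)
        show _ * (if ¬ CUB_bad l (x i) then sg (σ x) * sg (σ (x + ev i)) else 0) = 0
        rw [h8, mul_zero]
      rw [h3]
      have h4 := hGKW (Site d n) (fun _ _ => 0) (KF b (Box l (0 : Site d n))) (fun _ => 0) (fun _ => 0)
        (fun _ _ => le_rfl) (fun _ => le_rfl) (fun u v => CUB_KFn b hb _ u v) (fun _ => le_rfl) ∅ ∅
        (Finset.Subset.refl _) 0 (ev i)
      have h5 := hGKW (Site d n) (KF b (Box l (0 : Site d n))) (KF b (Box l (0 : Site d n))) (fun _ => 0)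
        (fun _ => 0) (fun u v => CUB_KFn b hb _ u v) (fun _ => le_rfl) (fun _ _ => le_rfl) (fun _ => le_rfl) ∅ ∅
        (Finset.Subset.refl _) 0 (ev i)
      have h6 := h4.2.1
      rw [h4.2.2.2.2, h5.2.2.2.2] at h6
      exact (CUB_zero _ _).trans h6
    · have h3 : (fun σ : Conf d n => if ¬ CUB_bad l (x i) then sg (σ x) * sg (σ (x + ev i)) else 0) =
          fun σ => sg (σ x) * sg (σ (x + ev i)) := by
        funext σ
        rw [if_pos hbad]
      rw [h3]
      obtain ⟨R, hR⟩ : ∃ R : Finset (Site d n), R = univ.filter fun y => ∀ k, (y k).val / l = (x k).val / l :=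
        ⟨_, rfl⟩
      have hmem : ∀ y, y ∈ R ↔ ∀ k, (y k).val / l = (x k).val / l := by
        intro y
        rw [hR, Finset.mem_filter]
        exact ⟨fun h => h.2, fun h => ⟨Finset.mem_univ _, h⟩⟩
      have hxR : x ∈ R := (hmem x).2 fun _ => rfl
      have hstep : ∀ (u : Site d n) (j : Fin d), ¬ CUB_bad l (u j) → (u ∈ R ↔ u + ev j ∈ R) := by
        intro u j hu
        rw [hmem, hmem]
        refine forall_congr' fun k => ?_
        rw [CUB_cls hn l u j hu k]
      have hK0 : ∀ u ∈ R, ∀ v, v ∉ R → CUB_K b l u v = 0 ∧ CUB_K b l v u = 0 := by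
        intro u hu v hv
        unfold CUB_K
        constructor
        · rw [Finset.sum_eq_zero, mul_zero]
          intro j _
          rw [if_neg]
          rintro ⟨h4, h5⟩
          apply hv
          rw [h4]
          exact (hstep u j h5).1 hu
        · rw [Finset.sum_eq_zero, mul_zero]
          intro j _
          rw [if_neg]
          rintro ⟨h4, h5⟩
          apply hv
          rw [h4] at hu
          exact (hstep v j h5).2 hu
      have hdep : ∀ σ τ : Conf d n, (∀ y ∈ R, σ y = τ y) →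
          sg (σ x) * sg (σ (x + ev i)) = sg (τ x) * sg (τ (x + ev i)) := by
        intro σ τ h
        rw [h x hxR, h (x + ev i) ((hstep x i hbad).1 hxR)]
      have f1 := hFAC (Site d n) (CUB_K b l) R (fun σ => sg (σ x) * sg (σ (x + ev i))) hK0 hdep
      rw [f1]
      have hRB : ∀ y ∈ R, y ∈ Box l x := by
        intro y hy
        rw [hmem] at hy
        unfold Box
        rw [Finset.mem_filter]
        refine ⟨Finset.mem_univ _, ?_⟩
        intro k
        exact CUB_near l hl (x k) (y k) (hy k).symm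
      have hle : ∀ u v : Site d n, (if u ∈ R ∧ v ∈ R then CUB_K b l u v else 0) ≤ KF b (Box l x) u v := by
        intro u v
        by_cases h : u ∈ R ∧ v ∈ R
        · rw [if_pos h]
          unfold KF
          rw [if_pos ⟨hRB u h.1, hRB v h.2⟩]
          exact CUB_Kle b hb l u v
        · rw [if_neg h]
          exact CUB_KFn b hb _ u v
      have hnn : ∀ u v : Site d n, 0 ≤ (if u ∈ R ∧ v ∈ R then CUB_K b l u v else 0) := by
        intro u v
        split_ifs
        · exact CUB_Kn b hb l u v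
        · exact le_rfl
      have h4 := hGKW (Site d n) (fun u v => if u ∈ R ∧ v ∈ R then CUB_K b l u v else 0)
        (KF b (Box l x)) (fun _ => 0) (fun _ => 0) hnn (fun _ => le_rfl) hle (fun _ => le_rfl) ∅ ∅
        (Finset.Subset.refl _) x (x + ev i)
      have h5 := hGKW (Site d n) (KF b (Box l x)) (KF b (Box l x)) (fun _ => 0)
        (fun _ => 0) (fun u v => CUB_KFn b hb _ u v) (fun _ => le_rfl) (fun _ _ => le_rfl) (fun _ => le_rfl) ∅ ∅
        (Finset.Subset.refl _) x (x + ev i)
      have h6 := h4.2.1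
      rw [h4.2.2.2.2, h5.2.2.2.2] at h6
      have h7 := (hTRX d n x (KF b (Box l (0 : Site d n))) (KF b (Box l x)) 0 ∅ ∅
        (fun σ => sg (σ x) * sg (σ (x + ev i))) (fun u v => CUB_KF b l x u v)
        (fun u => by simp)).2
      rw [h7] at h6
      have e2 : x - x = 0 := sub_self x
      have e3 : x + ev i - x = ev i := by abel
      simp only [e2, e3] at h6
      exact h6
  rw [hZt b, hZt (b - δ)]
  have hbC : (b - δ) * C ≤ b * C := mul_le_mul_of_nonneg_right (by linarith) hC0
  have hfin : (Fintype.card (Site d n) : ℝ) * (δ * uF d n b l + 4 * d * b / l) =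
      δ * ((Fintype.card (Site d n) : ℝ) * uF d n b l) + 2 * (b * C) := by
    rw [hC]
    ring
  rw [hfin]
  have hm := mul_le_mul_of_nonneg_left hmean hδ
  linarith

end CO
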